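import Pool.Agent.W770.KP.Stm

set_option autoImplicit false

open scoped Classical

namespace Pool.Agent.W778.KP.CHNB

open Pool.Agent.W770.KP

theorem aux1 (M : ℕ) : ∀ m : ℕ, ((M : ℝ) + 1) ^ (m + 1) ≤
    (M : ℝ) ^ (m + 1) + ((m : ℝ) + 1) * ((M : ℝ) + 1) ^ m := by
  intro m
  induction m with
  | zero => simp
  | succ m ih =>
    have hM : (0 : ℝ) ≤ M := Nat.cast_nonneg M
    have h1 : (M : ℝ) ^ (m + 1) ≤ ((M : ℝ) + 1) ^ (m + 1) :=
      pow_le_pow_left₀ hM (by linarith) _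
    have h2 : ((M : ℝ) + 1) ^ (m + 1 + 1) ≤
        ((M : ℝ) + 1) * ((M : ℝ) ^ (m + 1) + ((m : ℝ) + 1) * ((M : ℝ) + 1) ^ m) := by
      rw [pow_succ' _ (m + 1)]
      exact mul_le_mul_of_nonneg_left ih (by linarith)
    push_cast
    have e1 : ((M : ℝ) + 1) * ((M : ℝ) ^ (m + 1) + ((m : ℝ) + 1) * ((M : ℝ) + 1) ^ m) =
        (M : ℝ) ^ (m + 1 + 1) + (M : ℝ) ^ (m + 1) + ((m : ℝ) + 1) * ((M : ℝ) + 1) ^ (m + 1) := by
      ring
    rw [e1] at h2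
    linarith

theorem aux2 (m : ℕ) : ∀ M : ℕ, (M : ℝ) ^ (m + 1) ≤
    ((m : ℝ) + 1) * ∑ e ∈ Finset.range M, ((e : ℝ) + 1) ^ m := by
  intro M
  induction M with
  | zero => simp
  | succ M ih =>
    rw [Finset.sum_range_succ, mul_add]
    have := aux1 M m
    push_cast
    linarith

theorem aux3 (m D : ℕ) (S : Finset ℕ) (hS : ∀ e, 2 * e < D → e ∈ S) :
    (D : ℝ) ^ (m + 1) ≤ 2 ^ (m + 1) * ((m : ℝ) + 1) *
      ∑ e ∈ S.filter (fun e => 2 * e < D), ((e : ℝ) + 1) ^ m := by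
  have e1 : S.filter (fun e => 2 * e < D) = Finset.range ((D + 1) / 2) := by
    ext e
    rw [Finset.mem_filter, Finset.mem_range]
    constructor
    · rintro ⟨-, h⟩; omega
    · intro h
      have : 2 * e < D := by omega
      exact ⟨hS e this, this⟩
  rw [e1, mul_assoc]
  have h1 := aux2 m ((D + 1) / 2)
  have h2 : (D : ℝ) ≤ 2 * (((D + 1) / 2 : ℕ) : ℝ) := by
    have : D ≤ 2 * ((D + 1) / 2) := by omega
    exact_mod_cast this
  calc (D : ℝ) ^ (m + 1) ≤ (2 * (((D + 1) / 2 : ℕ) : ℝ)) ^ (m + 1) :=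
        pow_le_pow_left₀ (Nat.cast_nonneg D) h2 _
    _ = 2 ^ (m + 1) * (((D + 1) / 2 : ℕ) : ℝ) ^ (m + 1) := by rw [mul_pow]
    _ ≤ _ := mul_le_mul_of_nonneg_left h1 (by positivity)

theorem t_CHNB : S_CHNA → S_CHN := by
  intro h m hm
  refine ⟨2 ^ (m + 1) * ((m : ℝ) + 1) * (2 * (m : ℝ)) ^ m, ?_, ?_⟩
  · have : (0 : ℝ) < m := Nat.cast_pos.2 hm
    positivity
  intro F _ _ g b
  set q : ℝ := (Fintype.card F : ℝ) with hq
  have hq0 : 0 < q := Nat.cast_pos.2 Fintype.card_pos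
  have hm0 : (0 : ℝ) < m := Nat.cast_pos.2 hm
  let D : (Fin m → F) → ℕ := fun y => ∑ t : F, g (b y + t • (Fin.cons 1 y : Fin (m+1) → F))
  have hD : ∀ y, D y = ∑ t : F, g (b y + t • (Fin.cons 1 y : Fin (m+1) → F)) := fun _ => rfl
  let I : Finset ℕ := Finset.range (Finset.univ.sup D + 1)
  have hI : ∀ y e, 2 * e < D y → e ∈ I := by
    intro y e he
    have : D y ≤ Finset.univ.sup D := Finset.le_sup (Finset.mem_univ y)
    exact Finset.mem_range.2 (by omega)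
  have h1 := h m hm F g b I
  simp only [← hD] at h1 ⊢
  have h2 : ∑ e ∈ I, (((Finset.univ : Finset (Fin m → F)).filter (fun y => 2 * e < D y)).card : ℝ)
      * (((e:ℝ) + 1) / (2 * (m:ℝ) * q)) ^ m =
      (∑ y : Fin m → F, ∑ e ∈ I.filter (fun e => 2 * e < D y), ((e : ℝ) + 1) ^ m) /
        (2 * (m : ℝ) * q) ^ m := by
    have e1 : ∀ e ∈ I, (((Finset.univ : Finset (Fin m → F)).filter (fun y => 2 * e < D y)).card : ℝ)
      * (((e:ℝ) + 1) / (2 * (m:ℝ) * q)) ^ m =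
      ∑ y : Fin m → F, if 2 * e < D y then ((e : ℝ) + 1) ^ m / (2 * (m : ℝ) * q) ^ m else 0 := by
      intro e _
      rw [← Finset.sum_filter, Finset.sum_const, nsmul_eq_mul, div_pow]
    rw [Finset.sum_congr rfl e1, Finset.sum_comm, Finset.sum_div]
    refine Finset.sum_congr rfl fun y _ => ?_
    rw [← Finset.sum_filter, Finset.sum_div]
  rw [h2, div_le_iff₀ (by positivity)] at h1
  calc ∑ y : Fin m → F, ((D y : ℕ) : ℝ) ^ (m + 1)
      ≤ ∑ y : Fin m → F, 2 ^ (m + 1) * ((m : ℝ) + 1) *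
        ∑ e ∈ I.filter (fun e => 2 * e < D y), ((e : ℝ) + 1) ^ m :=
        Finset.sum_le_sum fun y _ => aux3 m (D y) I (hI y)
    _ = 2 ^ (m + 1) * ((m : ℝ) + 1) * ∑ y : Fin m → F,
        ∑ e ∈ I.filter (fun e => 2 * e < D y), ((e : ℝ) + 1) ^ m := by rw [Finset.mul_sum]
    _ ≤ 2 ^ (m + 1) * ((m : ℝ) + 1) * ((∑ x : Fin (m+1) → F, ((g x : ℕ) : ℝ) ^ (m+1)) *
        (2 * (m : ℝ) * q) ^ m) := mul_le_mul_of_nonneg_left h1 (by positivity)
    _ = _ := by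
      rw [mul_pow (2 * (m : ℝ)) q m]
      ring

end Pool.Agent.W778.KP.CHNB
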